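import Pool.Agent.Helper69.TC.Symm

/-! Module M8a: basic union bounds for the product law. -/

set_option autoImplicit false

open MeasureTheory Filter Topology

namespace Pool.Agent.Helper69.TC

theorem isProb {p q : ℝ} (hp : 0 ≤ p) (hq : 0 ≤ q) (hpq : 2 * p + q ≤ 1) :
    IsProbabilityMeasure (siteLaw p q) ∧ IsProbabilityMeasure (law p q) := by
  have h1 : IsProbabilityMeasure (siteLaw p q) := by
    constructor
    unfold siteLaw
    simp only [Measure.coe_add, Measure.coe_smul, Pi.add_apply, Pi.smul_apply, measure_univ,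
      smul_eq_mul, mul_one]
    rw [← ENNReal.ofReal_add hp hp, ← ENNReal.ofReal_add (by linarith) hq,
      ← ENNReal.ofReal_add (by linarith) (by linarith)]
    rw [← ENNReal.ofReal_one]
    congr 1
    ring
  refine ⟨h1, ?_⟩
  have h2 : IsProbabilityMeasure tieLaw := by
    unfold tieLaw
    infer_instance
  unfold law
  infer_instance

theorem siteLaw_blue (p q : ℝ) : siteLaw p q {some Color.blue} = ENNReal.ofReal p := by
  unfold siteLaw
  simp

theorem siteLaw_red (p q : ℝ) : siteLaw p q {some Color.red} = ENNReal.ofReal p := by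
  unfold siteLaw
  simp

theorem siteLaw_none (p q : ℝ) : siteLaw p q {none} = ENNReal.ofReal (1 - 2 * p - q) := by
  unfold siteLaw
  simp

/-- the law of finitely many sites -/
theorem law_pi {p q : ℝ} (hp : 0 ≤ p) (hq : 0 ≤ q) (hpq : 2 * p + q ≤ 1) (S : Finset Site)
    (t : Site → Set (Option Color)) :
    (law p q).real {ω | ∀ z ∈ S, ω.1 z ∈ t z} = ∏ z ∈ S, (siteLaw p q (t z)).toReal := by
  have := (isProb hp hq hpq).1
  have h2 : IsProbabilityMeasure tieLaw := by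
    unfold tieLaw
    infer_instance
  have h3 : {ω : (Site → Option Color) × (Site × ℕ → Ranking) | ∀ z ∈ S, ω.1 z ∈ t z} =
      (Set.pi S t) ×ˢ (Set.univ : Set (Site × ℕ → Ranking)) := by
    ext ω
    simp [Set.mem_pi]
  rw [Measure.real, h3]
  unfold law
  rw [Measure.prod_prod, measure_univ, mul_one, Measure.infinitePi_pi _
    (fun i _ => MeasurableSet.of_discrete), ENNReal.toReal_prod]

/-- Two blue seeds in a common row of the box, or two red seeds in a common column. -/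
def TwoSeeds (R : ℕ) (s : Site → Option Color) : Prop :=
  (∃ x x' y : ℤ, x.natAbs ≤ R ∧ x'.natAbs ≤ R ∧ y.natAbs ≤ R ∧ x ≠ x' ∧
    s (x, y) = some Color.blue ∧ s (x', y) = some Color.blue) ∨
  (∃ x y y' : ℤ, x.natAbs ≤ R ∧ y.natAbs ≤ R ∧ y'.natAbs ≤ R ∧ y ≠ y' ∧
    s (x, y) = some Color.red ∧ s (x, y') = some Color.red)

theorem two_sites {p q : ℝ} (hp : 0 ≤ p) (hq : 0 ≤ q) (hpq : 2 * p + q ≤ 1) (z z' : Site)
    (hz : z ≠ z') (c : Color) (hc : siteLaw p q {some c} = ENNReal.ofReal p) :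
    (law p q).real {ω | ω.1 z = some c ∧ ω.1 z' = some c} = p ^ 2 := by
  have h := law_pi hp hq hpq {z, z'} (fun _ => {some c})
  have h2 : {ω : (Site → Option Color) × (Site × ℕ → Ranking) |
      ω.1 z = some c ∧ ω.1 z' = some c} =
      {ω | ∀ w ∈ ({z, z'} : Finset Site), ω.1 w ∈ ({some c} : Set (Option Color))} := by
    ext ω
    simp
  rw [h2, h, Finset.prod_pair hz, hc, ENNReal.toReal_ofReal hp, pow_two]

theorem card_box1 (R : ℕ) : ((Finset.Icc (-(R : ℤ)) R).card : ℝ) = 2 * R + 1 := by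
  rw [Int.card_Icc]
  have : ((R : ℤ) + 1 - -(R : ℤ)).toNat = 2 * R + 1 := by omega
  rw [this]
  push_cast
  ring

theorem twoSeeds_le {p q : ℝ} (hp : 0 ≤ p) (hq : 0 ≤ q) (hpq : 2 * p + q ≤ 1) (R : ℕ) :
    (law p q).real {ω | TwoSeeds R ω.1} ≤ 2 * (2 * R + 1) ^ 3 * p ^ 2 := by
  have := (isProb hp hq hpq).2
  set I : Finset ℤ := Finset.Icc (-(R : ℤ)) R with hI
  have hmemI : ∀ x : ℤ, x.natAbs ≤ R → x ∈ I := by
    intro x hx
    rw [hI, Finset.mem_Icc]
    omega
  -- blue part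
  have hb : (law p q).real {ω | ∃ x x' y : ℤ, x.natAbs ≤ R ∧ x'.natAbs ≤ R ∧ y.natAbs ≤ R ∧ x ≠ x' ∧
      ω.1 (x, y) = some Color.blue ∧ ω.1 (x', y) = some Color.blue} ≤ (2 * R + 1) ^ 3 * p ^ 2 := by
    have hsub : {ω : (Site → Option Color) × (Site × ℕ → Ranking) |
        ∃ x x' y : ℤ, x.natAbs ≤ R ∧ x'.natAbs ≤ R ∧ y.natAbs ≤ R ∧ x ≠ x' ∧
        ω.1 (x, y) = some Color.blue ∧ ω.1 (x', y) = some Color.blue} ⊆
        ⋃ a ∈ I ×ˢ (I ×ˢ I), {ω | a.1 ≠ a.2.1 ∧ ω.1 (a.1, a.2.2) = some Color.blue ∧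
          ω.1 (a.2.1, a.2.2) = some Color.blue} := by
      rintro ω ⟨x, x', y, h1, h2, h3, h4, h5, h6⟩
      refine Set.mem_biUnion (x := (x, (x', y))) ?_ ⟨h4, h5, h6⟩
      simp only [Finset.coe_product, Set.mem_prod, Finset.mem_coe]
      exact ⟨hmemI x h1, hmemI x' h2, hmemI y h3⟩
    calc _ ≤ (law p q).real (⋃ a ∈ I ×ˢ (I ×ˢ I), {ω | a.1 ≠ a.2.1 ∧
          ω.1 (a.1, a.2.2) = some Color.blue ∧ ω.1 (a.2.1, a.2.2) = some Color.blue}) :=
          measureReal_mono hsub (measure_ne_top _ _)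
      _ ≤ ∑ a ∈ I ×ˢ (I ×ˢ I), (law p q).real {ω | a.1 ≠ a.2.1 ∧
          ω.1 (a.1, a.2.2) = some Color.blue ∧ ω.1 (a.2.1, a.2.2) = some Color.blue} :=
          measureReal_biUnion_finset_le _ _
      _ ≤ ∑ a ∈ I ×ˢ (I ×ˢ I), p ^ 2 := by
          apply Finset.sum_le_sum
          intro a _
          by_cases ha : a.1 = a.2.1
          · have : {ω : (Site → Option Color) × (Site × ℕ → Ranking) | a.1 ≠ a.2.1 ∧
                ω.1 (a.1, a.2.2) = some Color.blue ∧ ω.1 (a.2.1, a.2.2) = some Color.blue} = ∅ := by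
              ext ω; simp [ha]
            rw [this, measureReal_empty]
            positivity
          · have : {ω : (Site → Option Color) × (Site × ℕ → Ranking) | a.1 ≠ a.2.1 ∧
                ω.1 (a.1, a.2.2) = some Color.blue ∧ ω.1 (a.2.1, a.2.2) = some Color.blue} =
                {ω | ω.1 (a.1, a.2.2) = some Color.blue ∧
                  ω.1 (a.2.1, a.2.2) = some Color.blue} := by
              ext ω; simp [ha]
            rw [this, two_sites hp hq hpq _ _ (by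
              intro h; exact ha (congrArg Prod.fst h)) _ (siteLaw_blue p q)]
      _ = (2 * R + 1) ^ 3 * p ^ 2 := by
          rw [Finset.sum_const, nsmul_eq_mul, Finset.card_product, Finset.card_product]
          push_cast
          rw [hI, card_box1]
          ring
  have hr : (law p q).real {ω | ∃ x y y' : ℤ, x.natAbs ≤ R ∧ y.natAbs ≤ R ∧ y'.natAbs ≤ R ∧ y ≠ y' ∧
      ω.1 (x, y) = some Color.red ∧ ω.1 (x, y') = some Color.red} ≤ (2 * R + 1) ^ 3 * p ^ 2 := by
    have hsub : {ω : (Site → Option Color) × (Site × ℕ → Ranking) |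
        ∃ x y y' : ℤ, x.natAbs ≤ R ∧ y.natAbs ≤ R ∧ y'.natAbs ≤ R ∧ y ≠ y' ∧
        ω.1 (x, y) = some Color.red ∧ ω.1 (x, y') = some Color.red} ⊆
        ⋃ a ∈ I ×ˢ (I ×ˢ I), {ω | a.2.1 ≠ a.2.2 ∧ ω.1 (a.1, a.2.1) = some Color.red ∧
          ω.1 (a.1, a.2.2) = some Color.red} := by
      rintro ω ⟨x, y, y', h1, h2, h3, h4, h5, h6⟩
      refine Set.mem_biUnion (x := (x, (y, y'))) ?_ ⟨h4, h5, h6⟩
      simp only [Finset.coe_product, Set.mem_prod, Finset.mem_coe]
      exact ⟨hmemI x h1, hmemI y h2, hmemI y' h3⟩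
    calc _ ≤ (law p q).real (⋃ a ∈ I ×ˢ (I ×ˢ I), {ω | a.2.1 ≠ a.2.2 ∧
          ω.1 (a.1, a.2.1) = some Color.red ∧ ω.1 (a.1, a.2.2) = some Color.red}) :=
          measureReal_mono hsub (measure_ne_top _ _)
      _ ≤ ∑ a ∈ I ×ˢ (I ×ˢ I), (law p q).real {ω | a.2.1 ≠ a.2.2 ∧
          ω.1 (a.1, a.2.1) = some Color.red ∧ ω.1 (a.1, a.2.2) = some Color.red} :=
          measureReal_biUnion_finset_le _ _
      _ ≤ ∑ a ∈ I ×ˢ (I ×ˢ I), p ^ 2 := by
          apply Finset.sum_le_sum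
          intro a _
          by_cases ha : a.2.1 = a.2.2
          · have : {ω : (Site → Option Color) × (Site × ℕ → Ranking) | a.2.1 ≠ a.2.2 ∧
                ω.1 (a.1, a.2.1) = some Color.red ∧ ω.1 (a.1, a.2.2) = some Color.red} = ∅ := by
              ext ω; simp [ha]
            rw [this, measureReal_empty]
            positivity
          · have : {ω : (Site → Option Color) × (Site × ℕ → Ranking) | a.2.1 ≠ a.2.2 ∧
                ω.1 (a.1, a.2.1) = some Color.red ∧ ω.1 (a.1, a.2.2) = some Color.red} =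
                {ω | ω.1 (a.1, a.2.1) = some Color.red ∧
                  ω.1 (a.1, a.2.2) = some Color.red} := by
              ext ω; simp [ha]
            rw [this, two_sites hp hq hpq _ _ (by
              intro h; exact ha (congrArg Prod.snd h)) _ (siteLaw_red p q)]
      _ = (2 * R + 1) ^ 3 * p ^ 2 := by
          rw [Finset.sum_const, nsmul_eq_mul, Finset.card_product, Finset.card_product]
          push_cast
          rw [hI, card_box1]
          ring
  have hunion : {ω : (Site → Option Color) × (Site × ℕ → Ranking) | TwoSeeds R ω.1} =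
      {ω | ∃ x x' y : ℤ, x.natAbs ≤ R ∧ x'.natAbs ≤ R ∧ y.natAbs ≤ R ∧ x ≠ x' ∧
        ω.1 (x, y) = some Color.blue ∧ ω.1 (x', y) = some Color.blue} ∪
      {ω | ∃ x y y' : ℤ, x.natAbs ≤ R ∧ y.natAbs ≤ R ∧ y'.natAbs ≤ R ∧ y ≠ y' ∧
        ω.1 (x, y) = some Color.red ∧ ω.1 (x, y') = some Color.red} := rfl
  rw [hunion]
  refine (measureReal_union_le _ _).trans ?_
  linarith

/-- Some `S × S` square with lower left corner in the box of radius `D` contains no seed. -/
def EmptySquare (D S : ℕ) (s : Site → Option Color) : Prop :=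
  ∃ z : Site, z.1.natAbs ≤ D ∧ z.2.natAbs ≤ D ∧ ∀ w : Site,
    z.1 ≤ w.1 → w.1 < z.1 + S → z.2 ≤ w.2 → w.2 < z.2 + S → s w = none

/-- aligned interval inside an interval of twice the length -/
theorem aligned {u D N : ℕ} (hu : 0 < u) (hD : D ≤ N * u) (x : ℤ) (hx : x.natAbs ≤ D) :
    ∃ i : ℤ, -(N : ℤ) ≤ i ∧ i ≤ N ∧ x ≤ u * i ∧ u * i + u ≤ x + 2 * u := by
  have hu' : (0 : ℤ) < u := by exact_mod_cast hu
  have hD' : (D : ℤ) ≤ N * u := by exact_mod_cast hD
  refine ⟨-((-x) / u), ?_, ?_, ?_, ?_⟩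
  · have h1 : (-x) / u ≤ N := by
      rw [Int.ediv_le_iff_le_mul hu']
      have : -x ≤ N * u := by omega
      linarith
    omega
  · have h1 : -(N : ℤ) ≤ (-x) / u := by
      rw [Int.le_ediv_iff_mul_le hu']
      have : -(N * u : ℤ) ≤ -x := by omega
      linarith
    omega
  · have := Int.mul_ediv_self_le (x := -x) (k := u) hu'.ne'
    linarith
  · have := Int.lt_mul_ediv_self_add (x := -x) (k := u) hu'
    linarith

theorem emptySquare_le {p q : ℝ} (hp : 0 ≤ p) (hq : 0 ≤ q) (hpq : 2 * p + q ≤ 1) {u D N : ℕ}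
    (hu : 0 < u) (hD : D ≤ N * u) :
    (law p q).real {ω | EmptySquare D (2 * u) ω.1} ≤
      (2 * N + 3) ^ 2 * (1 - 2 * p - q) ^ (u ^ 2) := by
  have := (isProb hp hq hpq).2
  have h0 : 0 ≤ 1 - 2 * p - q := by linarith
  obtain ⟨Q, hQ⟩ : ∃ Q : ℤ × ℤ → Finset Site, ∀ a, Q a =
      Finset.Ico (u * a.1 : ℤ) (u * a.1 + u) ×ˢ Finset.Ico (u * a.2 : ℤ) (u * a.2 + u) :=
    ⟨_, fun _ => rfl⟩
  have hsub : {ω : (Site → Option Color) × (Site × ℕ → Ranking) | EmptySquare D (2 * u) ω.1} ⊆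
      ⋃ a ∈ (Finset.Icc (-(N : ℤ)) N) ×ˢ (Finset.Icc (-(N : ℤ)) N),
        {ω | ∀ w ∈ Q a, ω.1 w ∈ ({none} : Set (Option Color))} := by
    rintro ω ⟨z, h1, h2, h3⟩
    obtain ⟨i, hi1, hi2, hi3, hi4⟩ := aligned hu hD z.1 h1
    obtain ⟨j, hj1, hj2, hj3, hj4⟩ := aligned hu hD z.2 h2
    refine Set.mem_biUnion (x := (i, j)) ?_ ?_
    · simp only [Finset.coe_product, Set.mem_prod, Finset.mem_coe, Finset.mem_Icc]
      exact ⟨⟨hi1, hi2⟩, hj1, hj2⟩
    · intro w hw
      rw [hQ, Finset.mem_product, Finset.mem_Ico, Finset.mem_Ico] at hw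
      simp only at hw
      rw [Set.mem_singleton_iff]
      apply h3 w
      · linarith [hw.1.1]
      · push_cast; linarith [hw.1.2]
      · linarith [hw.2.1]
      · push_cast; linarith [hw.2.2]
  have hcard : ∀ a, (Q a).card = u ^ 2 := by
    intro a
    rw [hQ, Finset.card_product, Int.card_Ico, Int.card_Ico]
    have h1 : (u * a.1 + u - u * a.1 : ℤ).toNat = u := by
      have : (u * a.1 + u - u * a.1 : ℤ) = u := by ring
      rw [this]; simp
    have h2 : (u * a.2 + u - u * a.2 : ℤ).toNat = u := by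
      have : (u * a.2 + u - u * a.2 : ℤ) = u := by ring
      rw [this]; simp
    rw [h1, h2, pow_two]
  calc (law p q).real {ω | EmptySquare D (2 * u) ω.1}
      ≤ (law p q).real (⋃ a ∈ (Finset.Icc (-(N : ℤ)) N) ×ˢ (Finset.Icc (-(N : ℤ)) N),
        {ω | ∀ w ∈ Q a, ω.1 w ∈ ({none} : Set (Option Color))}) := measureReal_mono hsub (measure_ne_top _ _)
    _ ≤ ∑ a ∈ (Finset.Icc (-(N : ℤ)) N) ×ˢ (Finset.Icc (-(N : ℤ)) N),
        (law p q).real {ω | ∀ w ∈ Q a, ω.1 w ∈ ({none} : Set (Option Color))} :=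
        measureReal_biUnion_finset_le _ _
    _ = ∑ a ∈ (Finset.Icc (-(N : ℤ)) N) ×ˢ (Finset.Icc (-(N : ℤ)) N),
        (1 - 2 * p - q) ^ (u ^ 2) := by
        apply Finset.sum_congr rfl
        intro a _
        rw [law_pi hp hq hpq (Q a) (fun _ => {none}), Finset.prod_const, siteLaw_none,
          ENNReal.toReal_ofReal h0, hcard]
    _ = (2 * N + 1) ^ 2 * (1 - 2 * p - q) ^ (u ^ 2) := by
        rw [Finset.sum_const, nsmul_eq_mul, Finset.card_product]
        push_cast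
        rw [card_box1]
        ring
    _ ≤ (2 * N + 3) ^ 2 * (1 - 2 * p - q) ^ (u ^ 2) := by
        gcongr
        norm_num

end Pool.Agent.Helper69.TC
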