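import Pool.Agent.Helper21.TC.WallDet
import Pool.Agent.Helper69.TC.Geodesic
import Pool.Agent.Helper21.TC.ProbBasic
import Pool.Agent.Helper94.TC.WallProb

/-! Module M8b3: long walls are unlikely (union bound over the seeds and the four directions). -/

set_option autoImplicit false

open MeasureTheory Filter Topology

namespace Pool.Agent.Helper69.TC

variable {seed : Site → Option Color} {A : Site → Color → ℕ → Prop}

/-- A long blue line to the right of the seed `(b, y)` excludes the blocking events. -/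
theorem no_block_right (hG : Growth seed A) {t m : ℕ} (ht : 0 < t) {b y x₁ : ℤ}
    (hx : b + 8 * t * (m + 1) ≤ x₁)
    (hline : ∀ x : ℤ, b ≤ x → x ≤ x₁ → ∃ n, A (x, y) Color.blue n) :
    ∀ k : ℕ, 1 ≤ k → k ≤ m → ¬ BlockR Color.red t (b, y) k seed := by
  intro k _ hkm hB
  obtain ⟨x, h1, h2, n, hn⟩ := blockR_stops hG ht hB
  have h3 : (k : ℤ) + 1 ≤ m + 1 := by omega
  have ht' : (0 : ℤ) ≤ 8 * t := by positivity
  have h4 : 8 * (t : ℤ) * (k + 1) ≤ 8 * t * (m + 1) := mul_le_mul_of_nonneg_left h3 ht'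
  have h5 : (0 : ℤ) ≤ 8 * t * k := by positivity
  simp only at h1 h2 hn
  obtain ⟨n', hn'⟩ := hline x (by omega) (by omega)
  exact absurd (hG.color_eq hn hn') (by decide)

theorem blockR_swapC {t : ℕ} {b : Site} {k : ℕ} {s : Site → Option Color}
    (h : BlockR Color.blue t b k s) : BlockR Color.red t b k (fun z => (s z).map swapC) := by
  obtain ⟨r, h1, h2, h3⟩ := h
  refine ⟨r, h1, by simp [h2, swapC], fun w a1 a2 a3 a4 a5 => ?_⟩
  simp [h3 w a1 a2 a3 a4 a5]

/-- Reflection of the first coordinate as a permutation of the sites. -/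
def eX : Site ≃ Site where
  toFun z := (-z.1, z.2)
  invFun z := (-z.1, z.2)
  left_inv z := by simp
  right_inv z := by simp

/-- Exchange of the coordinates. -/
def eS : Site ≃ Site where
  toFun z := (z.2, z.1)
  invFun z := (z.2, z.1)
  left_inv z := by simp
  right_inv z := by simp

/-- Exchange of the coordinates composed with a reflection. -/
def eSX : Site ≃ Site where
  toFun z := (z.2, -z.1)
  invFun z := (-z.2, z.1)
  left_inv z := by simp
  right_inv z := by simp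

/-- The bad event for the seed `b` in the direction `e`. -/
def BadAt (t m : ℕ) (e : Site ≃ Site) (c1 c2 : Color) (b : Site)
    (ω : (Site → Option Color) × (Site × ℕ → Ranking)) : Prop :=
  ω.1 (e b) = some c1 ∧ ∀ k, 1 ≤ k → k ≤ m → ¬ BlockR c2 t b k (fun z => ω.1 (e z))

theorem lateWall_bad {t m D : ℕ} (ht : 0 < t) {ω : (Site → Option Color) × (Site × ℕ → Ranking)}
    (h : LateWall (8 * t * (m + 1)) D ω) :
    ∃ b : Site, b.1.natAbs ≤ 8 * t * (m + 1) + 2 * D + 6 ∧
      b.2.natAbs ≤ 8 * t * (m + 1) + 2 * D + 6 ∧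
      (BadAt t m (Equiv.refl Site) Color.blue Color.red b ω ∨
        BadAt t m eX Color.blue Color.red b ω ∨ BadAt t m eS Color.red Color.blue b ω ∨
        BadAt t m eSX Color.red Color.blue b ω) := by
  obtain ⟨z, hz1, hz2, n, hn1, hn2, hcol⟩ := h
  have hG := growth_run ω.1 ω.2
  obtain ⟨L, hL⟩ : ∃ L : ℕ, L = 8 * t * (m + 1) := ⟨_, rfl⟩
  have hL' : (L : ℤ) = 8 * t * (m + 1) := by rw [hL]; push_cast; ring
  rw [← hL] at hn1 hn2 ⊢
  rcases hcol with hb | hr
  · obtain ⟨b, hb1, hb2, hb3⟩ := blue_line hG hb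
    rcases le_total b z.1 with hdir | hdir
    · refine ⟨(b, z.2), by simp only; omega, by simp only; omega, Or.inl ⟨hb1, ?_⟩⟩
      apply no_block_right hG ht (x₁ := z.1)
      · rw [← hL']; omega
      · intro x h1 h2
        exact ⟨_, hb3 x (Or.inl ⟨h1, h2⟩)⟩
    · refine ⟨(-b, z.2), by simp only; omega, by simp only; omega, Or.inr (Or.inl ⟨?_, ?_⟩)⟩
      · change ω.1 (- -b, z.2) = _
        rw [neg_neg]; exact hb1
      · apply no_block_right hG.reflX ht (x₁ := -z.1)
        · rw [← hL']; omega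
        · intro x h1 h2
          exact ⟨_, hb3 (-x) (Or.inr ⟨by omega, by omega⟩)⟩
  · obtain ⟨b, hb1, hb2, hb3⟩ := red_line hG hr
    rcases le_total b z.2 with hdir | hdir
    · refine ⟨(b, z.1), by simp only; omega, by simp only; omega,
        Or.inr (Or.inr (Or.inl ⟨hb1, ?_⟩))⟩
      intro k hk1 hk2 hB
      refine no_block_right hG.swap ht (b := b) (y := z.1) (x₁ := z.2) (by rw [← hL']; omega) ?_ k
        hk1 hk2 (blockR_swapC hB)
      intro x h1 h2
      exact ⟨_, hb3 x (Or.inl ⟨h1, h2⟩)⟩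
    · refine ⟨(-b, z.1), by simp only; omega, by simp only; omega,
        Or.inr (Or.inr (Or.inr ⟨?_, ?_⟩))⟩
      · change ω.1 (z.1, - -b) = _
        rw [neg_neg]; exact hb1
      · intro k hk1 hk2 hB
        refine no_block_right hG.swap.reflX ht (b := -b) (y := z.1) (x₁ := -z.2)
          (by rw [← hL']; omega) ?_ k hk1 hk2 (blockR_swapC hB)
        intro x h1 h2
        exact ⟨_, hb3 (-x) (Or.inr ⟨by omega, by omega⟩)⟩

/-- Wall.lean (uses blockR_stops, blockR_prob, blue_line, red_line, Growth.reflX, reflY, swap) -/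
theorem lateWall_le {c : ℝ} (hc : 0 < c) :
    ∃ δ : ℝ, 0 < δ ∧ δ < 1 ∧ ∀ᶠ p : ℝ in 𝓝[>] 0, ∀ (m D : ℕ),
      (law p (c * p)).real {ω | LateWall (8 * ⌈1 / √p⌉₊ * (m + 1)) D ω} ≤
        4 * (2 * (8 * ⌈1 / √p⌉₊ * (m + 1) + 2 * D + 6) + 1) ^ 2 * (p * (1 - δ) ^ m) := by
  obtain ⟨δ, hδ0, hδ1, hev⟩ := blockR_prob hc
  refine ⟨δ, hδ0, hδ1, ?_⟩
  have hsmall : ∀ᶠ p : ℝ in 𝓝[>] 0, p < 1 / (2 + c) := by
    apply eventually_nhdsWithin_of_eventually_nhds
    exact gt_mem_nhds (by positivity)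
  filter_upwards [hev, hsmall, self_mem_nhdsWithin] with p hp hps hp0 m D
  have hp0' : 0 < p := hp0
  have hpq : 2 * p + c * p ≤ 1 := by
    rw [lt_div_iff₀ (by positivity)] at hps
    linarith
  have := (isProb hp0'.le (mul_nonneg hc.le hp0'.le) hpq).2
  obtain ⟨t, ht⟩ : ∃ t : ℕ, t = ⌈1 / √p⌉₊ := ⟨_, rfl⟩
  have ht0 : 0 < t := by
    rw [ht, Nat.ceil_pos]
    have := Real.sqrt_pos.2 hp0'
    positivity
  rw [← ht] at hp ⊢
  obtain ⟨R, hR⟩ : ∃ R : ℕ, R = 8 * t * (m + 1) + 2 * D + 6 := ⟨_, rfl⟩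
  have hR' : (2 * (8 * (t : ℝ) * (m + 1) + 2 * D + 6) + 1) = 2 * (R : ℝ) + 1 := by
    rw [hR]; push_cast; ring
  rw [hR']
  obtain ⟨I, hI⟩ : ∃ I : Finset Site, I = Finset.Icc (-(R : ℤ)) R ×ˢ Finset.Icc (-(R : ℤ)) R :=
    ⟨_, rfl⟩
  have hIcard : (I.card : ℝ) = (2 * R + 1) ^ 2 := by
    rw [hI, Finset.card_product]
    push_cast
    rw [card_box1]
    ring
  -- union bound for one direction
  have hdir : ∀ (e : Site ≃ Site) (c1 c2 : Color), c1 ≠ Color.green → c2 ≠ Color.green →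
      (law p (c * p)).real (⋃ b ∈ I, {ω | BadAt t m e c1 c2 b ω}) ≤
        (2 * R + 1) ^ 2 * (p * (1 - δ) ^ m) := by
    intro e c1 c2 h1 h2
    calc (law p (c * p)).real (⋃ b ∈ I, {ω | BadAt t m e c1 c2 b ω})
        ≤ ∑ b ∈ I, (law p (c * p)).real {ω | BadAt t m e c1 c2 b ω} :=
          measureReal_biUnion_finset_le _ _
      _ ≤ ∑ b ∈ I, p * (1 - δ) ^ m := Finset.sum_le_sum fun b _ => hp e c1 c2 h1 h2 b m
      _ = (2 * R + 1) ^ 2 * (p * (1 - δ) ^ m) := by
          rw [Finset.sum_const, nsmul_eq_mul, hIcard]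
  have hsub : {ω : (Site → Option Color) × (Site × ℕ → Ranking) |
      LateWall (8 * t * (m + 1)) D ω} ⊆
      ((⋃ b ∈ I, {ω | BadAt t m (Equiv.refl Site) Color.blue Color.red b ω}) ∪
        (⋃ b ∈ I, {ω | BadAt t m eX Color.blue Color.red b ω})) ∪
      ((⋃ b ∈ I, {ω | BadAt t m eS Color.red Color.blue b ω}) ∪
        (⋃ b ∈ I, {ω | BadAt t m eSX Color.red Color.blue b ω})) := by
    intro ω hω
    obtain ⟨b, hb1, hb2, hb⟩ := lateWall_bad ht0 hω
    rw [← hR] at hb1 hb2
    have hbI : b ∈ I := by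
      rw [hI, Finset.mem_product, Finset.mem_Icc, Finset.mem_Icc]
      omega
    rcases hb with hb | hb | hb | hb
    · exact Or.inl (Or.inl (Set.mem_biUnion hbI hb))
    · exact Or.inl (Or.inr (Set.mem_biUnion hbI hb))
    · exact Or.inr (Or.inl (Set.mem_biUnion hbI hb))
    · exact Or.inr (Or.inr (Set.mem_biUnion hbI hb))
  refine (measureReal_mono hsub (measure_ne_top _ _)).trans ?_
  refine (measureReal_union_le _ _).trans ?_
  have h1 := measureReal_union_le (μ := law p (c * p))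
    (⋃ b ∈ I, {ω | BadAt t m (Equiv.refl Site) Color.blue Color.red b ω})
    (⋃ b ∈ I, {ω | BadAt t m eX Color.blue Color.red b ω})
  have h2 := measureReal_union_le (μ := law p (c * p))
    (⋃ b ∈ I, {ω | BadAt t m eS Color.red Color.blue b ω})
    (⋃ b ∈ I, {ω | BadAt t m eSX Color.red Color.blue b ω})
  have h3 := hdir (Equiv.refl Site) Color.blue Color.red (by decide) (by decide)
  have h4 := hdir eX Color.blue Color.red (by decide) (by decide)
  have h5 := hdir eS Color.red Color.blue (by decide) (by decide)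
  have h6 := hdir eSX Color.red Color.blue (by decide) (by decide)
  linarith

end Pool.Agent.Helper69.TC
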