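import Pool.Agent.Helper69.TC.Symm

/-! Definitions shared by the modules M8b (WallDet, WallProb, Wall). -/

set_option autoImplicit false

namespace Pool.Agent.Helper69.TC

/-- Blocking event number `k` on the right of `b` (scale `8 * t`): the block
`[b.1 + 8 t k, b.1 + 8 t (k+1)) × [b.2 - 4 t, b.2 + 4 t)` contains exactly one seed, it has colour
`c2` and it is in the central part of the block. -/
def BlockR (c2 : Color) (t : ℕ) (b : Site) (k : ℕ) (s : Site → Option Color) : Prop :=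
  ∃ r : Site, (b.1 + 8 * t * k + 2 * t ≤ r.1 ∧ r.1 < b.1 + 8 * t * k + 6 * t ∧
      b.2 - t ≤ r.2 ∧ r.2 < b.2 + t) ∧ s r = some c2 ∧
    ∀ w : Site, b.1 + 8 * t * k ≤ w.1 → w.1 < b.1 + 8 * t * (k + 1) →
      b.2 - 4 * t ≤ w.2 → w.2 < b.2 + 4 * t → w ≠ r → s w = none

/-- Some site of the box of radius `D + 2` gets blue or red at a time in `[L + 1, L + D + 4]`. -/
def LateWall (L D : ℕ) (ω : (Site → Option Color) × (Site × ℕ → Ranking)) : Prop :=
  ∃ z : Site, z.1.natAbs ≤ D + 2 ∧ z.2.natAbs ≤ D + 2 ∧ ∃ n, L + 1 ≤ n ∧ n ≤ L + D + 4 ∧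
    (Col ω.1 ω.2 z Color.blue n ∨ Col ω.1 ω.2 z Color.red n)

end Pool.Agent.Helper69.TC
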