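import Pool.Agent.Helper21.TC.WallDefs

/-! Module M8b1: a blocking event stops the blue line (deterministic part). -/

set_option autoImplicit false

namespace Pool.Agent.Helper69.TC

variable {seed : Site → Option Color} {A : Site → Color → ℕ → Prop}

/-- Deterministic part (WallDet.lean): a blocking event stops the blue line started from `b`. -/
theorem blockR_stops (hG : Growth seed A) {t : ℕ} (ht : 0 < t) {b : Site} {k : ℕ}
    (hB : BlockR Color.red t b k seed) :
    ∃ x : ℤ, b.1 + 8 * t * k ≤ x ∧ x < b.1 + 8 * t * (k + 1) ∧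
      ∃ n, A (x, b.2) Color.red n := by
  obtain ⟨r, ⟨h1, h2, h3, h4⟩, hr, hempty⟩ := hB
  have hk : (8 * (t : ℤ) * (k + 1) : ℤ) = 8 * t * k + 8 * t := by ring
  rw [hk] at hempty ⊢
  obtain ⟨K, hK⟩ : ∃ K : ℤ, K = 8 * (t : ℤ) * k := ⟨_, rfl⟩
  rw [← hK] at h1 h2 hempty ⊢
  refine ⟨r.1, by omega, by omega, ?_⟩
  -- a site close to `r` which is coloured early is red
  have key : ∀ (y : ℤ) (c : Color) (n : ℕ), n ≤ t → b.2 - t ≤ y → y ≤ b.2 + t →
      A (r.1, y) c n → c = Color.red := by
    intro y c n hn hy1 hy2 hA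
    obtain ⟨w, hw, hd⟩ := hG.exists_seed hA
    have hd' : (w.1 - r.1).natAbs + (w.2 - y).natAbs ≤ t := le_trans hd hn
    by_cases hwr : w = r
    · rw [hwr, hr] at hw
      exact (Option.some.inj hw).symm
    · have := hempty w (by omega) (by omega) (by omega) (by omega) hwr
      rw [this] at hw
      exact absurd hw (by simp)
  -- upwards or downwards
  have walk : ∀ (σ : ℤ), (σ = 1 ∨ σ = -1) → ∀ j : ℕ, j ≤ t →
      (∀ i : ℕ, i ≤ j → b.2 - t ≤ r.2 + σ * i ∧ r.2 + σ * i ≤ b.2 + t) →
      ∃ n ≤ j, A (r.1, r.2 + σ * j) Color.red n := by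
    intro σ hσ j
    induction j with
    | zero =>
      intro _ _
      refine ⟨0, le_rfl, ?_⟩
      rw [hG.init]
      have : ((r.1, r.2 + σ * ((0 : ℕ) : ℤ)) : Site) = r := by
        ext <;> simp
      rw [this]
      exact hr
    | succ j ih =>
      intro hj hrange
      obtain ⟨n, hn, hA⟩ := ih (by omega) (fun i hi => hrange i (by omega))
      have hadj : Adj Color.red (r.1, r.2 + σ * (j : ℤ)) (r.1, r.2 + σ * ((j + 1 : ℕ) : ℤ)) := by
        simp only [Adj, Prod.ext_iff]
        rcases hσ with rfl | rfl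
        · right; constructor
          · trivial
          · push_cast; ring
        · left; constructor
          · trivial
          · push_cast; ring
      obtain ⟨c', n', hn', hA'⟩ := hG.spread hA hadj
      have h5 := hrange (j + 1) le_rfl
      have hc : c' = Color.red := key _ _ _ (by omega) h5.1 h5.2 hA'
      subst hc
      exact ⟨n', by omega, hA'⟩
  rcases le_total r.2 b.2 with h | h
  · obtain ⟨j, hj⟩ : ∃ j : ℕ, (j : ℤ) = b.2 - r.2 := ⟨(b.2 - r.2).toNat, by omega⟩
    obtain ⟨n, _, hA⟩ := walk 1 (Or.inl rfl) j (by omega) (fun i hi => by omega)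
    have : r.2 + 1 * (j : ℤ) = b.2 := by omega
    rw [this] at hA
    exact ⟨n, hA⟩
  · obtain ⟨j, hj⟩ : ∃ j : ℕ, (j : ℤ) = r.2 - b.2 := ⟨(r.2 - b.2).toNat, by omega⟩
    obtain ⟨n, _, hA⟩ := walk (-1) (Or.inr rfl) j (by omega) (fun i hi => by omega)
    have : r.2 + -1 * (j : ℤ) = b.2 := by omega
    rw [this] at hA
    exact ⟨n, hA⟩

end Pool.Agent.Helper69.TC
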